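import Pool.Agent.R544.SM.Main

/-!
# Uni-rule programs whose odd cycles have internal delocalizing triples have stable models

Atoms which do not have a well-founded positive support are made false; on the other atoms the
positive arcs form an acyclic graph, every supported model is stable, and a supported model is
found by induction: force an atom `u` to be false; if its body is then true, follow the propagation
of the change of `u` in the order of ranks; an odd cycle through `u` made of parents of least rank
has no internal delocalizing triple.
-/

namespace Pool.Agent.Results.MP_d24a2a_lc.UniRuleStable

open Pool.Agent.R544.SM

/-- Every finite uni-rule program such that every odd cycle of its atom dependency graph has an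
internal delocalizing triple has a stable model. -/
theorem result {A : Type*} [Finite A] (P : Program A) (hP : UniRule P)
    (hC : ∀ C : Pool.Agent.R544.SM.Cycle P, C.IsOdd → C.HasInternalDelocalizingTriple) :
    ∃ M : Set A, IsStableModel P M :=
  exists_stable P hP hC

end Pool.Agent.Results.MP_d24a2a_lc.UniRuleStable
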